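import Pool.Agent.Q17.WR.Stm2
import Pool.Agent.Q17.TC.All

/-!
# Project WR, job ZEX: characters of the inertia group
-/

set_option autoImplicit false

open scoped Classical

noncomputable section

namespace Pool.Agent.Q223.WR

open Pool.Agent.Helper884 Pool.Agent.Q17.WR
open Pool.Agent.H254R3.IN (IsIrr)
open Pool.Agent.Q17.TC (Ov Lf Mat Cor tr S_TR irr_of_norm irr_of_char parts)

section

variable (G A Ω : Type) [Group G] [Group A] [MulAction A Ω]

lemma mem_bs (x : Wr G A Ω) : x ∈ Bs G A Ω ↔ x.right = 1 := Iff.rfl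

lemma smul_left (a : A) (m : Ω → G) (ω : Ω) :
    (mulAutArrow (G := A) (A := Ω) (M := G) a m) ω = m (a⁻¹ • ω) := rfl

end

section

variable {G A Ω : Type} [Group G] [Group A] [MulAction A Ω] (f : Ω → G → ℂ)

/-- the base group as a subgroup of the inertia group -/
abbrev NN : Subgroup (Tf G (A := A) f) := (Bs G A Ω).comap (Tf G (A := A) f).subtype

/-- the left component on the base group -/
def lft : NN (A := A) f ≃* (Ω → G) where
  toFun n := ((n : Tf G (A := A) f) : Wr G A Ω).left
  invFun m := ⟨⟨SemidirectProduct.inl m, by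
    show (SemidirectProduct.inl m : Wr G A Ω).right ∈ Sf (A := A) f
    rw [SemidirectProduct.right_inl]
    exact one_mem _⟩, by
    show (SemidirectProduct.inl m : Wr G A Ω).right = 1
    rw [SemidirectProduct.right_inl]⟩
  left_inv n := by
    apply Subtype.ext
    apply Subtype.ext
    have h : ((n : Tf G (A := A) f) : Wr G A Ω).right = 1 := n.2
    refine SemidirectProduct.ext ?_ ?_
    · exact SemidirectProduct.left_inl _
    · rw [SemidirectProduct.right_inl, h]
  right_inv m := SemidirectProduct.left_inl _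
  map_mul' n m := by
    have h : ((n : Tf G (A := A) f) : Wr G A Ω).right = 1 := n.2
    show (((n : Tf G (A := A) f) : Wr G A Ω) * ((m : Tf G (A := A) f) : Wr G A Ω)).left = _
    rw [SemidirectProduct.mul_left, h, map_one]
    rfl

/-- the complement -/
def cmp : Sf (A := A) f →* Tf G (A := A) f where
  toFun a := ⟨SemidirectProduct.inr (a : A), by
    show (SemidirectProduct.inr (a : A) : Wr G A Ω).right ∈ Sf (A := A) f
    rw [SemidirectProduct.right_inr]
    exact a.2⟩
  map_one' := Subtype.ext (map_one _)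
  map_mul' a b := Subtype.ext (map_mul _ _ _)

lemma cmp_coe (a : Sf (A := A) f) : ((cmp f a : Tf G (A := A) f) : Wr G A Ω) =
    SemidirectProduct.inr (a : A) := rfl

lemma conj_left (a : Sf (A := A) f) (n : NN (A := A) f) :
    lft f (MulAut.conjNormal (cmp f a) n) = fun ω => lft f n ((a : A)⁻¹ • ω) := by
  have h : ((n : Tf G (A := A) f) : Wr G A Ω).right = 1 := n.2
  have e : (((MulAut.conjNormal (cmp f a) n : NN (A := A) f) : Tf G (A := A) f) : Wr G A Ω) =
      SemidirectProduct.inr (a : A) * ((n : Tf G (A := A) f) : Wr G A Ω) *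
        (SemidirectProduct.inr (a : A))⁻¹ := by
    rw [MulAut.conjNormal_apply]
    rfl
  funext ω
  show (((MulAut.conjNormal (cmp f a) n : NN (A := A) f) : Tf G (A := A) f) : Wr G A Ω).left ω = _
  rw [e, ← map_inv, SemidirectProduct.mul_left, SemidirectProduct.mul_left,
    SemidirectProduct.left_inr, SemidirectProduct.left_inr, map_one, mul_one, one_mul,
    SemidirectProduct.right_inr]
  rfl

end

theorem t_ZEX (hzrp : S_ZRP) (hzpr : S_ZPR) : S_ZEX := by
  intro G A Ω _ _ _ _ _ _ _ f hf
  obtain ⟨W, _, _, _, ρ, u, hρ, hu⟩ := hzrp G A Ω f hf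
  have hTR : S_TR := parts.tr
  have hHOM := parts.hom
  -- the representation of the base group
  let ρN : Representation ℂ (NN (A := A) f) W := ρ.comp (lft f (A := A)).toMonoidHom
  have hρN : ρN.character =
      fun n : NN (A := A) f => prf f ((n : Tf G (A := A) f) : Wr G A Ω).left := by
    funext n
    have := congrFun hρ (lft f n)
    exact this
  have hirrN : ρN.IsIrreducible := by
    apply irr_of_char hHOM
    rw [hρN]
    exact Pool.Agent.Y62.irr_comp (hzpr G Ω |>.1 f hf) (lft f)
  -- the trivial representation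
  let ρ' : Representation ℂ ((NN (A := A) f).comap (cmp f)) ℂ := Representation.trivial ℂ _ ℂ
  have hsub : ∀ m : (NN (A := A) f).comap (cmp f), m = 1 := by
    intro m
    have h1 : ((cmp f (m : Sf (A := A) f) : Tf G (A := A) f) : Wr G A Ω).right = 1 := m.2
    rw [cmp_coe, SemidirectProduct.right_inr] at h1
    exact Subtype.ext (Subtype.ext h1)
  have hch' : ∀ m, ρ'.character m = 1 := by
    intro m
    have : ρ'.character m = LinearMap.trace ℂ ℂ LinearMap.id := rfl
    rw [this, LinearMap.trace_id, Module.finrank_self, Nat.cast_one]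
  have hirr' : ρ'.IsIrreducible := by
    apply irr_of_norm hHOM
    unfold IC.B
    rw [Finset.sum_congr rfl fun g _ => by rw [hch', hch', one_mul], Finset.sum_const,
      Finset.card_univ, Nat.card_eq_fintype_card, nsmul_eq_mul, mul_one]
    exact inv_mul_cancel₀ (by exact_mod_cast Fintype.card_ne_zero)
  have hMat : Mat (cmp f) (NN (A := A) f) ρN ρ' (fun a => u a) (fun _ => LinearEquiv.refl ℂ ℂ) := by
    refine ⟨?_, ?_, ?_, ?_⟩
    · intro a n w
      show u a (ρ (lft f n) w) = ρ (lft f (MulAut.conjNormal (cmp f a) n)) (u a w)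
      rw [conj_left]
      exact hu a (lft f n) w
    · intro a n w
      rfl
    · intro a b
      refine ⟨1, one_ne_zero, fun w => ?_, fun w => ?_⟩
      · show u (a * b) w = _
        rw [map_mul, one_smul]
        rfl
      · rw [one_smul]
        rfl
    · intro m
      refine ⟨1, one_ne_zero, fun w => ?_, fun w => ?_⟩
      · rw [hsub m, one_smul]
        show u 1 w = ρ (lft f ⟨cmp f 1, _⟩) w
        have h2 : lft f (⟨cmp f 1, (by rw [map_one]; exact one_mem _)⟩ : NN (A := A) f) = 1 := by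
          rw [← map_one (lft f (A := A))]
          exact congrArg (lft f) (Subtype.ext (map_one (cmp f)))
        rw [map_one]
        have h3 := congrArg (fun m => ρ m w) h2
        simp only [map_one] at h3
        exact h3.symm
      · rw [one_smul]
        rfl
  have hG : ∀ g : Tf G (A := A) f, ∃ n ∈ NN (A := A) f, ∃ h, g = n * cmp f h := by
    intro g
    have hg : (g : Wr G A Ω).right ∈ Sf (A := A) f := g.2
    refine ⟨((lft f).symm (g : Wr G A Ω).left : NN (A := A) f), Subtype.property _,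
      ⟨(g : Wr G A Ω).right, hg⟩, ?_⟩
    apply Subtype.ext
    show (g : Wr G A Ω) = SemidirectProduct.inl _ * SemidirectProduct.inr _
    rw [SemidirectProduct.inl_left_mul_inr_right]
  obtain ⟨e, he⟩ := hTR (Tf G (A := A) f) (Sf (A := A) f) W ℂ (cmp f) (NN (A := A) f) ρN ρ'
    (fun a => u a) (fun _ => LinearEquiv.refl ℂ ℂ) hG hirrN hirr' hMat
  have hov : ∀ ψ : Sf (A := A) f → ℂ, IsIrr ψ → Ov ((NN (A := A) f).comap (cmp f)) ψ ρ'.character := by
    intro ψ hψ
    unfold Ov IC.B
    have h1 : ∀ m : (NN (A := A) f).comap (cmp f), ψ (m : Sf (A := A) f) * ρ'.character m⁻¹ = ψ 1 := by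
      intro m
      rw [hch', mul_one, hsub m]
      rfl
    rw [Finset.sum_congr rfl fun m _ => h1 m, Finset.sum_const, Finset.card_univ,
      Nat.card_eq_fintype_card, nsmul_eq_mul, ← mul_assoc,
      inv_mul_cancel₀ (by exact_mod_cast Fintype.card_ne_zero), one_mul]
    exact hψ.one_ne
  let e1 : {χ : Tf G (A := A) f → ℂ // IsIrr χ ∧
        Ov ((Bs G A Ω).comap (Tf G (A := A) f).subtype) χ (fun n => prf f (n : Wr G A Ω).left)} ≃
      {χ : Tf G (A := A) f → ℂ // IsIrr χ ∧ Ov (NN (A := A) f) χ ρN.character} :=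
    Equiv.subtypeEquivRight fun χ => by rw [hρN]
  let e2 : {ψ : Sf (A := A) f → ℂ // IsIrr ψ ∧ Ov ((NN (A := A) f).comap (cmp f)) ψ ρ'.character} ≃
      {ψ : Sf (A := A) f → ℂ // IsIrr ψ} :=
    Equiv.subtypeEquivRight fun ψ => ⟨fun h => h.1, fun h => ⟨h, hov ψ h⟩⟩
  refine ⟨(e1.trans e).trans e2, fun χ => ?_⟩
  obtain ⟨s, hs1, hs2⟩ := he (e1 χ)
  have a1 := hs1 1 1
  have a2 := hs2 1 1
  have b1 : tr ρN (u 1) 1 = (Module.finrank ℂ W : ℂ) := by
    unfold tr
    rw [map_one, map_one]
    exact LinearMap.trace_one ℂ W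
  have b2 : tr ρ' (LinearEquiv.refl ℂ ℂ) 1 = 1 := by
    unfold tr
    have : (ρ' 1 ∘ₗ ((LinearEquiv.refl ℂ ℂ : ℂ ≃ₗ[ℂ] ℂ) : ℂ →ₗ[ℂ] ℂ)) = 1 := rfl
    rw [this, LinearMap.trace_one, Module.finrank_self, Nat.cast_one]
  have b3 : prf f 1 = (Module.finrank ℂ W : ℂ) := by
    rw [← hρ]
    exact Representation.char_one ρ
  rw [b1] at a1
  rw [b2] at a2
  have c1 : χ.1 1 = s 1 * (Module.finrank ℂ W : ℂ) := by
    rw [← a1]
    show χ.1 1 = χ.1 _
    rw [map_one, Subgroup.coe_one, one_mul]
  have c2 : (e (e1 χ)).1 1 = s 1 := by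
    rw [mul_one (s 1)] at a2
    rw [← a2, Subgroup.coe_one, one_mul]
  show χ.1 1 = prf f 1 * (e (e1 χ)).1 1
  rw [c1, c2, b3, mul_comm]

end Pool.Agent.Q223.WR
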